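import Pool.Agent.Q12.OmegaAlg

/-!
Two non-isomorphic `Ω'`-algebras with the same `Ω'`-identities and with isomorphic critical
`Ω`-reducts, over every field.
-/

namespace Pool.Agent.Results.MP_3dda3d_al.CriticalReduct

open Q12.Omega

universe u v w

section defs

variable {Ω' : ℕ → Type v} {k : Type u} {A : Type w} [CommRing k] [AddCommGroup A] [Module k A]

/-- The signature `Ω ⊆ Ω'` formed by the symbols in the sets `S n ⊆ Ω' n`. -/
abbrev Sub (S : ∀ n, Set (Ω' n)) : ℕ → Type v := fun n => S n

/-- The reduct `(A, Ω)` of an `Ω'`-algebra: forget the operations outside `Ω`. -/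
def reduct (S : ∀ n, Set (Ω' n)) (op : Ops Ω' k A) : Ops (Sub S) k A := fun n ω => op n ω.1

/-- `A` and `B` are isomorphic `Ω'`-algebras. -/
def Isomorphic {B : Type*} [AddCommGroup B] [Module k B] (op : Ops Ω' k A) (op' : Ops Ω' k B) :
    Prop :=
  ∃ e : A ≃ₗ[k] B, ∀ (n : ℕ) (ω : Ω' n) (a : Fin n → A), e (op n ω a) = op' n ω (fun i => e (a i))

/-- The section `R / I` of `A` satisfies the identity `f`: all values of `f` on the subalgebra `R`
lie in the ideal `I`. -/
def SectionSatisfies (op : Ops Ω' k A) (R I : Submodule k A) (f : Monom Ω' →₀ k) : Prop :=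
  ∀ a : ℕ → A, (∀ i, a i ∈ R) → evalPoly op a f ∈ I

/-- `A` is critical: it does not lie in the variety generated by its proper sections, that is, some
`f` is an identity of all proper sections `R / I` (those with not both `R = A` and `I = 0`) but not
of `A`. -/
def IsCritical (op : Ops Ω' k A) : Prop :=
  ∃ f : Monom Ω' →₀ k,
    (∀ R I : Submodule k A, IsSubalgebra op R → IsIdealOf op R I → ¬ (R = ⊤ ∧ I = ⊥) →
      SectionSatisfies op R I f) ∧ ¬ IsIdentity op f

end defs

/-- The signature `Ω'` with exactly two operation symbols, both binary. -/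
inductive Two : ℕ → Type
  | br : Two 2
  | st : Two 2

/-- The predicate singling out the first symbol. -/
inductive IsBr : ∀ n, Two n → Prop
  | mk : IsBr 2 Two.br

/-- The subsignature `Ω ⊆ Ω'` consisting of the first symbol only. -/
def BrOnly (n : ℕ) : Set (Two n) := {ω | IsBr n ω}

section proof

variable {k : Type u} [Field k]

/-- the underlying space -/
abbrev H (k : Type u) : Type u := k × k × k

/-- the bilinear operation with values in the last coordinate given by a bilinear form in the
first two coordinates -/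
def bil (p q r s : k) : MultilinearMap k (fun _ : Fin 2 => H k) (H k) where
  toFun x := (0, 0, p * ((x 0).1 * (x 1).1) + q * ((x 0).1 * (x 1).2.1) +
    r * ((x 0).2.1 * (x 1).1) + s * ((x 0).2.1 * (x 1).2.1))
  map_update_add' := by
    intro _ m i x y
    fin_cases i
    · simp [Function.update]
      ring
    · simp [Function.update]
      ring
  map_update_smul' := by
    intro _ m i c x
    fin_cases i
    · simp [Function.update]
      ring
    · simp [Function.update]
      ring

theorem bil_apply (p q r s : k) (x : Fin 2 → H k) : bil p q r s x =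
    (0, 0, p * ((x 0).1 * (x 1).1) + q * ((x 0).1 * (x 1).2.1) +
    r * ((x 0).2.1 * (x 1).1) + s * ((x 0).2.1 * (x 1).2.1)) := rfl

/-- the algebras: bracket `x1 y2 - x2 y1` and star `x1 y1 + q x2 y2` -/
def opQ (q : k) : Ops Two k (H k)
  | _, Two.br => bil 0 1 (-1) 0
  | _, Two.st => bil 1 0 0 q

/-- auxiliary substitution -/
def sh (x : H k) : H k := (x.2.1, 0, 0)

theorem eval_V (q q' : k) (a : ℕ → H k) (t : Monom Two) :
    (t.eval (opQ q) a).1 = (t.eval (opQ q') a).1 ∧
    (t.eval (opQ q) a).2.1 = (t.eval (opQ q') a).2.1 ∧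
    (t.eval (opQ q) (fun i => sh (a i))).1 = (t.eval (opQ q) a).2.1 ∧
    (t.eval (opQ q) (fun i => sh (a i))).2.1 = 0 := by
  cases t with
  | var i => simp [Monom.eval, sh]
  | app n ω t =>
    cases ω with
    | br => simp [Monom.eval, opQ, bil_apply]
    | st => simp [Monom.eval, opQ, bil_apply]

theorem eval_shift (q s : k) (a : ℕ → H k) (t : Monom Two) :
    t.eval (opQ (q + s)) a =
      t.eval (opQ q) a + s • (0, 0, (t.eval (opQ q) (fun i => sh (a i))).2.2) := by
  cases t with
  | var i => simp [Monom.eval, sh]
  | app n ω t =>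
    cases ω with
    | br =>
      obtain ⟨h1, h2, h3, h4⟩ := eval_V (q + s) q a (t 0)
      obtain ⟨g1, g2, g3, g4⟩ := eval_V (q + s) q a (t 1)
      obtain ⟨-, -, h5, h6⟩ := eval_V q q a (t 0)
      obtain ⟨-, -, g5, g6⟩ := eval_V q q a (t 1)
      simp only [Monom.eval, opQ, bil_apply, h1, h2, g1, g2, h5, h6, g5, g6]
      simp
    | st =>
      obtain ⟨h1, h2, h3, h4⟩ := eval_V (q + s) q a (t 0)
      obtain ⟨g1, g2, g3, g4⟩ := eval_V (q + s) q a (t 1)
      obtain ⟨-, -, h5, h6⟩ := eval_V q q a (t 0)
      obtain ⟨-, -, g5, g6⟩ := eval_V q q a (t 1)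
      simp only [Monom.eval, opQ, bil_apply, h1, h2, g1, g2, h5, h6, g5, g6]
      simp
      ring

theorem evalPoly_shift (q s : k) (a : ℕ → H k) (f : Monom Two →₀ k) :
    evalPoly (opQ (q + s)) a f =
      evalPoly (opQ q) a f + s • (0, 0, (evalPoly (opQ q) (fun i => sh (a i)) f).2.2) := by
  have h : ∀ g : Monom Two → H k, (f.sum fun t c => c • g t).2.2 =
      f.sum fun t c => c • (g t).2.2 := by
    intro g
    have := map_finsuppSum ((LinearMap.snd k k k).comp (LinearMap.snd k k (k × k))) f
      (fun t c => c • g t)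
    simpa using this
  have h' : ∀ g : Monom Two → k, ((0, 0, f.sum fun t c => c • g t) : H k) =
      f.sum fun t c => c • (0, 0, g t) := by
    intro g
    have := map_finsuppSum ((LinearMap.inr k k (k × k)).comp (LinearMap.inr k k k)) f
      (fun t c => c • g t)
    simpa using this
  unfold evalPoly
  rw [h, h', Finsupp.smul_sum, ← Finsupp.sum_add]
  refine Finsupp.sum_congr fun t _ => ?_
  rw [eval_shift, smul_add, smul_comm s]

theorem identity_shift (q s : k) (f : Monom Two →₀ k) (hf : IsIdentity (opQ q) f) :
    IsIdentity (opQ (q + s)) f := by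
  intro a
  rw [evalPoly_shift, hf, hf]
  simp

theorem identity_iff (q q' : k) (f : Monom Two →₀ k) :
    IsIdentity (opQ q) f ↔ IsIdentity (opQ q') f := by
  constructor
  · intro h
    have := identity_shift q (q' - q) f h
    rwa [add_sub_cancel] at this
  · intro h
    have := identity_shift q' (q - q') f h
    rwa [add_sub_cancel] at this

/-- the bracket symbol in the small signature -/
def brS : Sub BrOnly 2 := ⟨Two.br, IsBr.mk⟩

theorem red_br (q : k) (a : Fin 2 → H k) : reduct BrOnly (opQ q) 2 brS a =
    (0, 0, (a 0).1 * (a 1).2.1 - (a 0).2.1 * (a 1).1) := by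
  change bil 0 1 (-1) 0 a = _
  rw [bil_apply]
  ext <;> simp
  ring

theorem reduct_eq (q q' : k) : reduct BrOnly (opQ q) = reduct BrOnly (opQ q') := by
  funext n ω
  obtain ⟨ω, hω⟩ := ω
  cases hω
  rfl

theorem critical (q : k) : IsCritical (reduct BrOnly (opQ q)) := by
  let t : Monom (Sub BrOnly) := Monom.app 2 brS (fun i => Monom.var i)
  have hval : ∀ a : ℕ → H k, evalPoly (reduct BrOnly (opQ q)) a (Finsupp.single t 1) =
      (0, 0, (a 0).1 * (a 1).2.1 - (a 0).2.1 * (a 1).1) := by
    intro a
    unfold evalPoly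
    rw [Finsupp.sum_single_index (by simp), one_smul]
    change reduct BrOnly (opQ q) 2 brS _ = _
    rw [red_br]
    rfl
  refine ⟨Finsupp.single t 1, ?_, ?_⟩
  · intro R I hR hI hprop a ha
    rw [hval]
    set D : k := (a 0).1 * (a 1).2.1 - (a 0).2.1 * (a 1).1 with hD
    by_cases hR' : R = ⊤
    · -- then `I` is nonzero
      have hI' : I ≠ ⊥ := fun h => hprop ⟨hR', h⟩
      obtain ⟨w, hw, hw0⟩ := Submodule.exists_mem_ne_zero_of_ne_bot hI'
      have h1 : ((0, 0, w.1) : H k) ∈ I := by
        have := hI.2 2 brS (fun i => if i = 0 then w else (0, 1, 0))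
          (fun i => by rw [hR']; trivial) ⟨0, by simpa using hw⟩
        rw [red_br] at this
        simpa using this
      have h2 : ((0, 0, -w.2.1) : H k) ∈ I := by
        have := hI.2 2 brS (fun i => if i = 0 then w else (1, 0, 0))
          (fun i => by rw [hR']; trivial) ⟨0, by simpa using hw⟩
        rw [red_br] at this
        simpa using this
      have hc : ((0, 0, 1) : H k) ∈ I := by
        by_cases hw1 : w.1 = 0
        · by_cases hw2 : w.2.1 = 0
          · have hw3 : w.2.2 ≠ 0 := by
              intro h
              exact hw0 (by ext <;> simp [hw1, hw2, h])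
            have := I.smul_mem (w.2.2)⁻¹ hw
            have he : (w.2.2)⁻¹ • w = ((0, 0, 1) : H k) := by
              ext <;> simp [hw1, hw2, hw3]
            rwa [he] at this
          · have := I.smul_mem (-w.2.1)⁻¹ h2
            have he : (-w.2.1)⁻¹ • ((0, 0, -w.2.1) : H k) = ((0, 0, 1) : H k) := by
              ext <;> simp [hw2]
            rwa [he] at this
        · have := I.smul_mem (w.1)⁻¹ h1
          have he : (w.1)⁻¹ • ((0, 0, w.1) : H k) = ((0, 0, 1) : H k) := by
            ext <;> simp [hw1]
          rwa [he] at this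
      have := I.smul_mem D hc
      simpa using this
    · -- then `R` is abelian
      have hD0 : D = 0 := by
        by_contra hD0
        apply hR'
        have hb : ((0, 0, D) : H k) ∈ R := by
          have := hR 2 brS (fun i => a i) (fun i => ha i)
          rw [red_br] at this
          exact this
        rw [eq_top_iff]
        rintro ⟨x, y, z⟩ -
        set α : k := (x * (a 1).2.1 - y * (a 1).1) * D⁻¹ with hα
        set β : k := ((a 0).1 * y - (a 0).2.1 * x) * D⁻¹ with hβ
        set γ : k := (z - α * (a 0).2.2 - β * (a 1).2.2) * D⁻¹ with hγ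
        have h1 : ((x, y, z) : H k) = α • a 0 + β • a 1 + γ • ((0, 0, D) : H k) := by
          ext
          · simp only [Prod.fst_add, Prod.smul_fst, smul_eq_mul, mul_zero, add_zero, hα, hβ]
            field_simp
            rw [hD]
            ring
          · simp only [Prod.fst_add, Prod.smul_fst, Prod.snd_add, Prod.smul_snd, smul_eq_mul,
              mul_zero, add_zero, hα, hβ]
            field_simp
            rw [hD]
            ring
          · simp only [Prod.snd_add, Prod.smul_snd, smul_eq_mul, hγ]
            field_simp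
            ring
        rw [h1]
        exact R.add_mem (R.add_mem (R.smul_mem _ (ha 0)) (R.smul_mem _ (ha 1))) (R.smul_mem _ hb)
      rw [hD0]
      exact I.zero_mem
  · intro h
    have h1 := h (fun i => if i = 0 then (1, 0, 0) else (0, 1, 0))
    rw [hval] at h1
    simp at h1

theorem not_iso : ¬ Isomorphic (opQ (0 : k)) (opQ (1 : k)) := by
  rintro ⟨e, he⟩
  have key : ∀ x : H k, (∀ y : H k, opQ (0 : k) 2 Two.st ![x, y] = 0) →
      (e x).1 = 0 ∧ (e x).2.1 = 0 := by
    intro x hx
    have h1 : ∀ w : H k, opQ (1 : k) 2 Two.st ![e x, w] = 0 := by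
      intro w
      have h2 := he 2 Two.st ![x, e.symm w]
      rw [hx, map_zero] at h2
      have h3 : (fun i => e ((![x, e.symm w] : Fin 2 → H k) i)) = ![e x, w] := by
        funext i
        fin_cases i <;> simp
      rw [h3] at h2
      exact h2.symm
    have h4 := h1 (1, 0, 0)
    have h5 := h1 (0, 1, 0)
    simp [opQ, bil_apply] at h4 h5
    exact ⟨h4, h5⟩
  obtain ⟨h1, h2⟩ := key (0, 1, 0) (fun y => by simp [opQ, bil_apply])
  obtain ⟨h3, h4⟩ := key (0, 0, 1) (fun y => by simp [opQ, bil_apply])
  have h5 : e ((e (0, 0, 1)).2.2 • (0, 1, 0) - (e (0, 1, 0)).2.2 • (0, 0, 1)) = 0 := by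
    rw [map_sub, map_smul, map_smul]
    ext
    · simp [h1, h3]
    · simp [h2, h4]
    · simp [mul_comm]
  have h6 := (map_eq_zero_iff e e.injective).1 h5
  have h7 : (e (0, 1, 0)).2.2 = 0 := by
    have := congrArg (fun p : H k => p.2.2) h6
    simpa using this
  have h8 : e ((0, 1, 0) : H k) = 0 := by
    ext
    · exact h1
    · exact h2
    · exact h7
  have h9 := (map_eq_zero_iff e e.injective).1 h8
  have := congrArg (fun p : H k => p.2.1) h9
  simp at this

end proof

/-- Over every field `k` there are signatures `Ω ⊆ Ω'` (the symbol `br`, respectively the two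
symbols `br`, `st`, all binary) and finite-dimensional `Ω'`-algebras `A`, `B` with isomorphic
critical `Ω`-reducts and the same `Ω'`-identities that are not isomorphic as `Ω'`-algebras. -/
theorem result (k : Type u) [Field k] :
    ∃ (A B : Type u) (_ : AddCommGroup A) (_ : Module k A) (_ : AddCommGroup B) (_ : Module k B)
      (op : Ops Two k A) (op' : Ops Two k B),
      FiniteDimensional k A ∧ FiniteDimensional k B ∧
      Isomorphic (reduct BrOnly op) (reduct BrOnly op') ∧
      IsCritical (reduct BrOnly op) ∧ IsCritical (reduct BrOnly op') ∧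
      (∀ f : Monom Two →₀ k, IsIdentity op f ↔ IsIdentity op' f) ∧
      ¬ Isomorphic op op' := by
  refine ⟨H k, H k, inferInstance, inferInstance, inferInstance, inferInstance, opQ 0, opQ 1,
    inferInstance, inferInstance, ?_, critical 0, critical 1, identity_iff 0 1, not_iso⟩
  rw [reduct_eq 0 1]
  exact ⟨LinearEquiv.refl k _, fun n ω a => rfl⟩

end Pool.Agent.Results.MP_3dda3d_al.CriticalReduct
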